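import Pool.Agent.helper67DC.Family

/-!
MP_982fcc_co.  A connected graph is double-critical if deleting the two ends of any edge lowers the
chromatic number by two.  For every `n ≥ 16` the complete graph `K_n` is not the only `n`-chromatic
double-critical graph: for all `a ≥ 1` with `16 a ≤ n` there is one with `n + 24 a` vertices, and
its largest independent sets have exactly three vertices.
-/

namespace Pool.Agent.Results.MP_982fcc_co.EveryNFromSixteen

theorem result :
    ∀ n a : ℕ, 1 ≤ a → 16 * a ≤ n →
      ∃ (V : Type) (_ : Fintype V) (G : SimpleGraph V),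
        Fintype.card V = n + 24 * a ∧
        G.Connected ∧
        G.chromaticNumber = n ∧
        (∀ u v : V, G.Adj u v →
          (G.induce ({u, v}ᶜ : Set V)).chromaticNumber + 2 = G.chromaticNumber) ∧
        G.indepNum = 3 ∧
        IsEmpty (G ≃g (⊤ : SimpleGraph (Fin n))) := by
  intro n a ha hn
  obtain ⟨a, rfl⟩ : ∃ b, a = b + 1 := ⟨a - 1, by omega⟩
  obtain ⟨m, rfl⟩ : ∃ m, n = 16 * (a + 1) + m := ⟨n - 16 * (a + 1), by omega⟩
  obtain ⟨V, hV, _, G, hc, hd, hcn, hi⟩ := helper67DC.fam a m
  refine ⟨V, hV, G, hc, hcn, hd.chrom, fun u v huv => ?_, helper67DC.indepNum_eq hi, ⟨fun e => ?_⟩⟩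
  · rw [hd.chrom_edge huv, hd.chrom]
  · have h := Fintype.card_congr e.toEquiv
    rw [hc, Fintype.card_fin] at h
    omega

end Pool.Agent.Results.MP_982fcc_co.EveryNFromSixteen
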